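import Pool.Agent.H88.BR.Term

/-!
# The value of a term at an instance
-/

set_option autoImplicit false

namespace Pool.Agent.H88.BR

/-- The value of a term at `d = (d₁, …, dₙ)`, a rational number: `x / 0 = 0`, and `ite s t u` is `t` if
`s > 0` and `u` otherwise. -/
def Tm.value {n : ℕ} (d : Fin n → ℕ) : Tm n → ℚ
  | .var i => (d i : ℚ)
  | .const q => q
  | .add s t => s.value d + t.value d
  | .sub s t => s.value d - t.value d
  | .mul s t => s.value d * t.value d
  | .div s t => s.value d / t.value d
  | .floor s => ((⌊s.value d⌋ : ℤ) : ℚ)
  | .ite s t u => if 0 < s.value d then t.value d else u.value d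

end Pool.Agent.H88.BR
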