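import Pool.Agent.H88.BS.Final
import Pool.Agent.H88.BT.Value

/-!
# No finite set of terms decides whether `B*(d) < 3/4`
-/

set_option autoImplicit false

namespace Pool.Agent.H88.BT

open Pool.Agent.H78.BN Pool.Agent.H88.BR

lemma value_eq {n : ℕ} (d : Fin n → ℕ) (t : Tm n) :
    t.value d = Pool.Agent.H88.BS.valQ (fun i => (d i : ℚ)) t := by
  induction t with
  | var i => rfl
  | const q => rfl
  | add s t hs ht => show _ + _ = _ + _; rw [hs, ht]
  | sub s t hs ht => show _ - _ = _ - _; rw [hs, ht]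
  | mul s t hs ht => show _ * _ = _ * _; rw [hs, ht]
  | div s t hs ht => show _ / _ = _ / _; rw [hs, ht]
  | floor s hs => show ((⌊_⌋ : ℤ) : ℚ) = ((⌊_⌋ : ℤ) : ℚ); rw [hs]
  | ite s t u hs ht hu => show (if 0 < _ then _ else _) = (if 0 < _ then _ else _); rw [hs, ht, hu]

lemma value_cast {n : ℕ} (d : Fin n → ℕ) (t : Tm n) :
    ((t.value d : ℚ) : ℝ) = t.eval (fun i => (d i : ℝ)) := by
  rw [value_eq, Pool.Agent.H88.BS.valQ_cast]
  have h : (fun i => ((((fun i => (d i : ℚ)) i : ℚ)) : ℝ)) = fun i => (d i : ℝ) := by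
    funext i
    exact Rat.cast_natCast _
  rw [h]

/-- **Main theorem.** Let `n ≥ 4`. The signs of finitely many real polynomials in the values of terms
and, for finitely many terms `τ` and the primes `ℓ ≤ m`, the valuation `v` of `τ(d)` and the class of
`τ(d)` modulo `ℓ ^ (v + m)` do not decide whether `B*(d) < 3/4`, even for instances with `gcd = 1`. -/
theorem no_terms (n : ℕ) (hn : 4 ≤ n) (m : ℕ) (P : Finset (MvPolynomial (Tm n) ℝ))
    (F : Finset (Tm n)) :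
    ∃ d d' : Fin n → ℕ, (∀ i, 0 < d i) ∧ (∀ i, 0 < d' i) ∧
      Finset.univ.gcd d = 1 ∧ Finset.univ.gcd d' = 1 ∧
      (∀ p ∈ P, SignType.sign (MvPolynomial.eval (fun τ : Tm n => (τ.value d : ℝ)) p)
        = SignType.sign (MvPolynomial.eval (fun τ : Tm n => (τ.value d' : ℝ)) p)) ∧
      (∀ τ ∈ F, ∀ ℓ : ℕ, ℓ.Prime → ℓ ≤ m →
        padicNorm ℓ (τ.value d - τ.value d') ≤ (ℓ : ℚ) ^ (-(m : ℤ)) * padicNorm ℓ (τ.value d)) ∧
      Bstar d < 3 / 4 ∧ ¬ Bstar d' < 3 / 4 := by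
  obtain ⟨d, d', h1, h2, h3, h4, h5, h6, h7⟩ := Pool.Agent.H88.BS.no_terms n hn m P F
  refine ⟨d, d', h1, h2, h3, h4, fun p hp => ?_, fun τ hτ ℓ hℓ hm => ?_, h7⟩
  · have h := h5 p hp
    have e : ∀ d : Fin n → ℕ, (fun τ : Tm n => ((τ.value d : ℚ) : ℝ)) =
        fun τ : Tm n => τ.eval fun i => (d i : ℝ) := by
      intro d
      funext τ
      exact value_cast d τ
    rw [e, e]
    exact h
  · rw [value_eq, value_eq]
    exact h6 τ hτ ℓ hℓ hm

end Pool.Agent.H88.BT
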